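import Pool.Agent.Lib.MP_4a16d5_al.Slack

/-! Every finite local ring embeds into a matrix ring over a commutative ring. -/

universe u

theorem Pool.Agent.Results.MP_4a16d5_al.Representable.result :
    ∀ (R : Type u) [Ring R] [Finite R], (1 : R) ≠ 0 →
      (∃ I : TwoSidedIdeal R, ∀ x : R, x ∈ I ↔ ¬IsUnit x) →
      ∃ (n : ℕ) (K : Type) (_ : CommRing K) (f : R →+* Matrix (Fin n) (Fin n) K),
        1 ≤ n ∧ (1 : K) ≠ 0 ∧ Function.Injective f := by
  intro R _ _ h1 ⟨I, hI⟩
  have : Nontrivial R := ⟨1, 0, h1⟩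
  have hl : IsLocalRing R := ⟨fun {a b} hab => by
    by_contra hc
    rw [not_or] at hc
    exact (hI 1).1 (hab ▸ I.add_mem ((hI a).2 hc.1) ((hI b).2 hc.2)) isUnit_one⟩
  let e : Shrink.{0} R ≃+* R := Shrink.ringEquiv.{0} R
  have : Finite (Shrink.{0} R) := Finite.of_equiv R e.toEquiv.symm
  have : Nontrivial (Shrink.{0} R) := e.toEquiv.nontrivial
  have : IsLocalRing (Shrink.{0} R) := ⟨fun {a b} hab => by
    have h := hl.isUnit_or_isUnit_of_add_one (a := e a) (b := e b) (by rw [← map_add, hab, map_one])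
    exact h.imp (fun h => by simpa using h.map e.symm) fun h => by simpa using h.map e.symm⟩
  obtain ⟨K, _, n, f, hf⟩ := Pool.Agent.Lib.MP_4a16d5_al.main (Shrink.{0} R)
  have hm : Nontrivial (Matrix (Fin n) (Fin n) K) := hf.nontrivial
  refine ⟨n, K, inferInstance, f.comp e.symm.toRingHom, ?_, fun h => ?_, hf.comp e.symm.injective⟩
  · rcases Nat.eq_zero_or_pos n with rfl | hn
    · exact absurd (Subsingleton.elim _ _) (one_ne_zero (α := Matrix (Fin 0) (Fin 0) K))
    · exact hn
  · have : Subsingleton K := subsingleton_of_zero_eq_one h.symm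
    exact absurd (Subsingleton.elim _ _) (one_ne_zero (α := Matrix (Fin n) (Fin n) K))
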